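import Pool.Agent.Q291.MK.Stm8
import Pool.Agent.Q224.MK.BLK

/-!
# Job BLK4 of project MK: integration over the interior links of a block, four class functions
-/

set_option autoImplicit false

namespace Pool.Agent.Q299.MK

open Filter Topology MeasureTheory Quaternion Pool.Agent.Q291.MK Pool.Agent.Q280.MK Pool.Agent.Q224.MK

theorem t_BLK4 : P_BLK4 := by
  intro f1 f2 f3 f4 hf1 hf2 hf3 hf4 hc1 hc2 hc3 hc4 a1 a2 a3 a4
  have hcl : ∀ f : G → ℝ, (∀ x y, f (x * y) = f (y * x)) → ∀ v z, f (v * z * v⁻¹) = f z := by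
    intro f hc v z
    rw [mul_assoc, hc, mul_assoc, inv_mul_cancel, mul_one]
  have s4 : ∀ v1 v2 v3 : G, ∫ v4, f1 (v1 * a1 * v2⁻¹) * f2 (v2 * a2 * v3⁻¹) * f3 (v3 * a3 * v4⁻¹) *
      f4 (v4 * a4 * v1⁻¹) ∂haar =
        f1 (v1 * a1 * v2⁻¹) * (f2 (v2 * a2 * v3⁻¹) * conv f3 f4 (v3 * (a3 * a4 * v1⁻¹))) := by
    intro v1 v2 v3
    have h := link_int f3 f4 (v3 * a3) (a4 * v1⁻¹)
    have e : v3 * (a3 * a4 * v1⁻¹) = v3 * a3 * (a4 * v1⁻¹) := by group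
    rw [e, ← h, ← integral_const_mul, ← integral_const_mul]
    congr 1
    funext v4
    rw [mul_assoc v4 a4 v1⁻¹]
    ring
  have s3 : ∀ v1 v2 : G, ∫ v3, f1 (v1 * a1 * v2⁻¹) * (f2 (v2 * a2 * v3⁻¹) *
      conv f3 f4 (v3 * (a3 * a4 * v1⁻¹))) ∂haar =
      f1 (v1 * a1 * v2⁻¹) * conv f2 (conv f3 f4) (v2 * (a2 * a3 * a4 * v1⁻¹)) := by
    intro v1 v2
    have h := link_int f2 (conv f3 f4) (v2 * a2) (a3 * a4 * v1⁻¹)
    have e : v2 * (a2 * a3 * a4 * v1⁻¹) = v2 * a2 * (a3 * a4 * v1⁻¹) := by group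
    rw [e, ← h, ← integral_const_mul]
  have s2 : ∀ v1 : G, ∫ v2, f1 (v1 * a1 * v2⁻¹) *
      conv f2 (conv f3 f4) (v2 * (a2 * a3 * a4 * v1⁻¹)) ∂haar =
      conv f1 (conv f2 (conv f3 f4)) (a1 * a2 * a3 * a4) := by
    intro v1
    rw [link_int]
    have e : v1 * a1 * (a2 * a3 * a4 * v1⁻¹) = v1 * (a1 * a2 * a3 * a4) * v1⁻¹ := by group
    rw [e]
    exact conv_class (hcl f1 hc1) (conv_class (hcl f2 hc2) (conv_class (hcl f3 hc3) (hcl f4 hc4))) v1 _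
  simp only [s4, s3, s2]
  rw [integral_const, probReal_univ, one_smul]

end Pool.Agent.Q299.MK
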