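import Pool.Agent.Q291.MK.Stm8
import Pool.Agent.Q224.MK.BLK

/-!
# Job COR of project MK: truncated correlations
-/

set_option autoImplicit false

namespace Pool.Agent.Q299.MK

open Filter Topology MeasureTheory Quaternion Pool.Agent.Q291.MK Pool.Agent.Q280.MK Pool.Agent.Q224.MK

lemma cmul {u f : G → ℝ} (hu : Continuous u) (hf : Continuous f) : Continuous fun y => u y * f y :=
  hu.mul hf

lemma int_close {u h : G → ℝ} (hu : Continuous u) (hh : Continuous h) {A B c : ℝ}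
    (hA0 : 0 ≤ A) (hA : ∀ y, |u y| ≤ A) (hB : ∀ y, |h y - c| ≤ B) :
    |∫ y, u y * h y ∂haar - (∫ y, u y ∂haar) * c| ≤ A * B := by
  have e : ∫ y, u y * h y ∂haar - (∫ y, u y ∂haar) * c = ∫ y, u y * (h y - c) ∂haar := by
    have h1 := integral_sub (μ := haar) (f := fun y => u y * h y) (g := fun y => u y * c)
      (integrable_cont (cmul hu hh)) ((integrable_cont hu).mul_const c)
    rw [← integral_mul_const, ← h1]
    congr 1
    funext y
    ring
  rw [e]
  have h1 := norm_integral_le_of_norm_le_const (μ := haar) (f := fun y => u y * (h y - c))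
    (C := A * B) (Eventually.of_forall fun y => by
      rw [Real.norm_eq_abs, abs_mul]
      exact mul_le_mul (hA y) (hB y) (abs_nonneg _) hA0)
  rwa [probReal_univ, mul_one] at h1

lemma int_abs {u : G → ℝ} {A : ℝ} (hA : ∀ y, |u y| ≤ A) : |∫ y, u y ∂haar| ≤ A := by
  have h1 := norm_integral_le_of_norm_le_const (μ := haar) (f := u) (C := A)
    (Eventually.of_forall fun y => hA y)
  rwa [probReal_univ, mul_one] at h1

lemma conv_abs {u g g' f : G → ℝ} (hf : Continuous f) (hg : Continuous g) {A B : ℝ}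
    (hA0 : 0 ≤ A) (hA : ∀ y, |u y| ≤ A) (hf0 : ∀ y, 0 ≤ f y) (hB : ∀ y, |g' y| ≤ B * g y) (x : G) :
    |conv (fun y => u y * f y) g' x| ≤ A * B * conv f g x := by
  unfold conv
  rw [← integral_const_mul]
  have h := norm_integral_le_of_norm_le (μ := haar) (f := fun y => u y * f y * g' (y⁻¹ * x))
    (g := fun y => A * B * (f y * g (y⁻¹ * x)))
    ((integrable_cont (conv_integrand_cont hf hg x)).const_mul _)
    (Eventually.of_forall fun y => ?_)
  · rwa [Real.norm_eq_abs] at h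
  rw [Real.norm_eq_abs, abs_mul, abs_mul, abs_of_nonneg (hf0 y)]
  calc |u y| * f y * |g' (y⁻¹ * x)| ≤ A * f y * (B * g (y⁻¹ * x)) :=
        mul_le_mul (mul_le_mul_of_nonneg_right (hA y) (hf0 y)) (hB _) (abs_nonneg _)
          (mul_nonneg hA0 (hf0 y))
    _ = A * B * (f y * g (y⁻¹ * x)) := by ring

lemma conv_lin {u v g : G → ℝ} (hu : Continuous u) (hv : Continuous v) (hg : Continuous g)
    (s t : ℝ) (x : G) :
    conv (fun y => s * u y + t * v y) g x = s * conv u g x + t * conv v g x := by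
  unfold conv
  rw [← integral_const_mul, ← integral_const_mul, ← integral_add
    ((integrable_cont (conv_integrand_cont hu hg x)).const_mul _)
    ((integrable_cont (conv_integrand_cont hv hg x)).const_mul _)]
  congr 1
  funext y
  ring

lemma conv_lin' {u v g : G → ℝ} (hu : Continuous u) (hv : Continuous v) (hg : Continuous g)
    (s t : ℝ) (x : G) :
    conv g (fun y => s * u y + t * v y) x = s * conv g u x + t * conv g v x := by
  unfold conv
  rw [← integral_const_mul, ← integral_const_mul, ← integral_add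
    ((integrable_cont (conv_integrand_cont hg hu x)).const_mul _)
    ((integrable_cont (conv_integrand_cont hg hv x)).const_mul _)]
  congr 1
  funext y
  ring

lemma conv_comm' {f h : G → ℝ} (hc : ∀ x y, f (x * y) = f (y * x)) (x : G) :
    conv f h x = conv h f x := by
  unfold conv
  rw [← int_left_inv (fun y => f y * h (y⁻¹ * x)) x]
  congr 1
  funext y
  have h1 : (x * y⁻¹)⁻¹ * x = y := by group
  simp only [h1]
  rw [hc x y⁻¹, mul_comm]

section
variable {F : ℕ → G → ℝ} (hF : ∀ n, Continuous (F n)) (hF0 : ∀ n x, 0 ≤ F n x)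
  (hF1 : ∀ n x, 0 < tt x → 0 < F n x)

lemma Qop_cont {f φ : G → ℝ} (hf : Continuous f) (hf0 : ∀ x, 0 ≤ f x)
    (hf1 : ∀ x, 0 < tt x → 0 < f x) (hφ : Continuous φ) : Continuous (Qop f φ) := by
  unfold Qop
  exact (conv_cont (cmul hφ hf) (conv_cont hf (conv_cont hf hf))).div
    (conv_cont hf (conv_cont hf (conv_cont hf hf))) fun x => (Z_pos' hf hf0 hf1 x).ne'

lemma Qop_lin {f φ ψ : G → ℝ} (hf : Continuous f) (hφ : Continuous φ) (hψ : Continuous ψ)
    (s t : ℝ) (x : G) : Qop f (fun y => s * φ y + t * ψ y) x = s * Qop f φ x + t * Qop f ψ x := by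
  unfold Qop
  have e : (fun y => (s * φ y + t * ψ y) * f y) = fun y => s * (φ y * f y) + t * (ψ y * f y) := by
    funext y
    ring
  rw [e, conv_lin (cmul hφ hf) (cmul hψ hf) (conv_cont hf (conv_cont hf hf))]
  ring

include hF hF0 hF1

lemma cnd_cont {g : G → ℝ} (hg : Continuous g) (N : ℕ) : Continuous (cnd F g N) := by
  induction N with
  | zero => exact hg
  | succ N ih => exact Qop_cont (hF N) (hF0 N) (hF1 N) ih

lemma cnd_lin {g h : G → ℝ} (hg : Continuous g) (hh : Continuous h) (s t : ℝ) (N : ℕ) :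
    cnd F (fun y => s * g y + t * h y) N = fun x => s * cnd F g N x + t * cnd F h N x := by
  induction N with
  | zero => rfl
  | succ N ih =>
    funext x
    change Qop (F N) (cnd F (fun y => s * g y + t * h y) N) x = _
    rw [ih]
    exact Qop_lin (hF N) (cnd_cont hF hF0 hF1 hg N) (cnd_cont hF hF0 hF1 hh N) s t x

lemma cnd_av (hAV : P_AV) {g : G → ℝ} (hg : Continuous g) {u v : ℝ} (h : ∀ x, u ≤ g x ∧ g x ≤ v)
    (N : ℕ) : ∀ x, u ≤ cnd F g N x ∧ cnd F g N x ≤ v := by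
  induction N with
  | zero => exact h
  | succ N ih => exact hAV (F N) (hF N) (hF0 N) (hF1 N) _ u v (cnd_cont hF hF0 hF1 hg N) ih

lemma cnd_lin4 (hAV : P_AV) {g1 g2 g3 : G → ℝ} (h1 : Continuous g1) (h2 : Continuous g2)
    (h3 : Continuous g3) (c0 c1 c2 : ℝ) (N : ℕ) (x : G) :
    cnd F (fun y => c0 + c1 * g1 y + c2 * g2 y + g3 y) N x =
      c0 + c1 * cnd F g1 N x + c2 * cnd F g2 N x + cnd F g3 N x := by
  have e : (fun y => c0 + c1 * g1 y + c2 * g2 y + g3 y) = fun y =>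
      1 * (1 * c0 + 1 * (c1 * g1 y + c2 * g2 y)) + 1 * g3 y := by
    funext y
    ring
  have k12 : Continuous fun y => c1 * g1 y + c2 * g2 y :=
    (continuous_const.mul h1).add (continuous_const.mul h2)
  have k0 : Continuous fun _ : G => c0 := continuous_const
  have k012 : Continuous fun y => 1 * c0 + 1 * (c1 * g1 y + c2 * g2 y) :=
    continuous_const.add (continuous_const.mul k12)
  rw [e, cnd_lin hF hF0 hF1 k012 h3]
  simp only
  rw [cnd_lin hF hF0 hF1 k0 k12]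
  simp only
  rw [cnd_lin hF hF0 hF1 h1 h2]
  simp only
  have h5 := cnd_av hF hF0 hF1 hAV k0 (u := c0) (v := c0) (fun _ => ⟨le_rfl, le_rfl⟩) N x
  have h6 : cnd F (fun _ => c0) N x = c0 := le_antisymm h5.2 h5.1
  rw [h6]
  ring

end

section
variable {f : G → ℝ} (hf : Continuous f) (hf0 : ∀ x, 0 ≤ f x) (hf1 : ∀ x, 0 < tt x → 0 < f x)
  (hc : ∀ x y, f (x * y) = f (y * x))
include hf hf0 hf1

lemma Q2_cont {φ ψ : G → ℝ} (hφ : Continuous φ) (hψ : Continuous ψ) : Continuous (Q2 f φ ψ) := by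
  unfold Q2
  exact (conv_cont (cmul hφ hf) (conv_cont (cmul hψ hf) (conv_cont hf hf))).div
    (conv_cont hf (conv_cont hf (conv_cont hf hf))) fun x => (Z_pos' hf hf0 hf1 x).ne'

include hc in
lemma Q2_expand {φ ψ : G → ℝ} (hφ : Continuous φ) (hψ : Continuous ψ) (a b : ℝ) (x : G) :
    Q2 f (fun y => a + φ y) (fun y => b + ψ y) x =
      a * b + a * Qop f ψ x + b * Qop f φ x + Q2 f φ ψ x := by
  have hK := conv_cont hf hf
  have hfK := conv_cont hf hK
  have hψK := conv_cont (cmul hψ hf) hK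
  have e1 : conv (fun y => (b + ψ y) * f y) (conv f f) =
      fun z => b * conv f (conv f f) z + 1 * conv (fun y => ψ y * f y) (conv f f) z := by
    funext z
    rw [← conv_lin hf (cmul hψ hf) hK]
    congr 1
    funext y
    ring
  have e2 : (fun y => (a + φ y) * f y) = fun y => a * f y + 1 * (φ y * f y) := by
    funext y
    ring
  have hsum : Continuous fun z => b * conv f (conv f f) z +
      1 * conv (fun y => ψ y * f y) (conv f f) z :=
    (continuous_const.mul hfK).add (continuous_const.mul hψK)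
  have e3 : conv (fun y => (a + φ y) * f y) (conv (fun y => (b + ψ y) * f y) (conv f f)) x =
      a * (b * conv f (conv f (conv f f)) x + 1 * conv f (conv (fun y => ψ y * f y) (conv f f)) x) +
      1 * (b * conv (fun y => φ y * f y) (conv f (conv f f)) x +
        1 * conv (fun y => φ y * f y) (conv (fun y => ψ y * f y) (conv f f)) x) := by
    rw [e1, e2, conv_lin hf (cmul hφ hf) hsum, conv_lin' hfK hψK hf, conv_lin' hfK hψK (cmul hφ hf)]
  have e4 : conv f (conv (fun y => ψ y * f y) (conv f f)) x =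
      conv (fun y => ψ y * f y) (conv f (conv f f)) x := by
    rw [conv_assoc hf (cmul hψ hf) hK, conv_assoc (cmul hψ hf) hf hK]
    congr 1
    funext z
    exact conv_comm' hc z
  have hZ := (Z_pos' hf hf0 hf1 x).ne'
  unfold Q2 Qop
  rw [e3, e4]
  field_simp
  ring

lemma Q2_triv {φ ψ : G → ℝ} {δ : ℝ} (hδ : 0 ≤ δ) (h1 : ∀ x, |φ x| ≤ δ) (h2 : ∀ x, |ψ x| ≤ δ) (x : G) :
    |Q2 f φ ψ x| ≤ δ * δ := by
  have hK := conv_cont hf hf
  have hZ := Z_pos' hf hf0 hf1 x
  have k1 : ∀ z, |conv (fun y => ψ y * f y) (conv f f) z| ≤ δ * conv f (conv f f) z := by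
    intro z
    have := conv_abs (u := ψ) (g := conv f f) (g' := conv f f) (f := f) (B := 1) hf hK hδ h2 hf0
      (fun y => by rw [one_mul, abs_of_nonneg (g1_pos hf hf0 hf1 y).le]) z
    rwa [mul_one] at this
  have k2 := conv_abs (u := φ) (g := conv f (conv f f))
    (g' := conv (fun y => ψ y * f y) (conv f f)) (f := f) (B := δ) hf (conv_cont hf hK) hδ h1 hf0 k1 x
  unfold Q2
  rw [abs_div, abs_of_pos hZ, div_le_iff₀ hZ]
  exact k2

end

lemma close_div {n d a b ε δ : ℝ} (hε : 0 ≤ ε) (hε1 : ε ≤ 1 / 8) (hδ : 0 ≤ δ) (hd : 1 - 4 * ε ≤ d)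
    (hd1 : d ≤ 1) (hn : |n - a| ≤ 4 * ε * δ) (ha : |a| ≤ δ) (hb : b = 16 * ε * δ) : |n / d - a| ≤ b := by
  have hd0 : 1 / 2 ≤ d := by linarith
  have hd00 : 0 < d := by linarith
  have e : n / d - a = ((n - a) + a * (1 - d)) / d := by
    field_simp
    ring
  rw [e, abs_div, abs_of_pos hd00, div_le_iff₀ hd00, hb]
  have h1 : |(n - a) + a * (1 - d)| ≤ 4 * ε * δ + δ * (4 * ε) := by
    refine (abs_add_le _ _).trans (add_le_add hn ?_)
    rw [abs_mul, abs_of_nonneg (show 0 ≤ 1 - d by linarith)]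
    exact mul_le_mul ha (by linarith) (by linarith) hδ
  refine h1.trans ?_
  have : 0 ≤ ε * δ := mul_nonneg hε hδ
  nlinarith

section
variable {f : G → ℝ} (hf : Continuous f) {ε : ℝ} (hε : 0 ≤ ε) (hε1 : ε ≤ 1 / 8)
  (hfε : ∀ x, 1 - ε ≤ f x ∧ f x ≤ 1)
include hf hε hε1 hfε

lemma dens (x : G) : 1 - 2 * ε ≤ conv f f x ∧ conv f f x ≤ 1 ∧ 1 - 3 * ε ≤ conv f (conv f f) x ∧
    conv f (conv f f) x ≤ 1 ∧ 1 - 4 * ε ≤ conv f (conv f (conv f f)) x ∧
    conv f (conv f (conv f f)) x ≤ 1 := by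
  have hs : 0 ≤ 1 - ε := by linarith
  have hb1 := conv_bounds hf hf hs hs hfε hfε
  have hb2 := conv_bounds hf (conv_cont hf hf) hs (mul_nonneg hs hs) hfε hb1
  have hb3 := conv_bounds hf (conv_cont hf (conv_cont hf hf)) hs (mul_nonneg hs (mul_nonneg hs hs)) hfε hb2
  have h2 : 1 - 2 * ε ≤ (1 - ε) * (1 - ε) := by nlinarith
  have h3 : 1 - 3 * ε ≤ (1 - ε) * ((1 - ε) * (1 - ε)) := by
    have := mul_le_mul_of_nonneg_left h2 hs
    nlinarith
  have h4 : 1 - 4 * ε ≤ (1 - ε) * ((1 - ε) * ((1 - ε) * (1 - ε))) := by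
    have := mul_le_mul_of_nonneg_left h3 hs
    nlinarith
  exact ⟨h2.trans (hb1 x).1, (hb1 x).2, h3.trans (hb2 x).1, (hb2 x).2, h4.trans (hb3 x).1, (hb3 x).2⟩

lemma Qop_close {φ : G → ℝ} (hφ : Continuous φ) {δ : ℝ} (hδ : 0 ≤ δ) (h1 : ∀ x, |φ x| ≤ δ) (x : G) :
    |Qop f φ x - ∫ y, φ y ∂haar| ≤ 16 * ε * δ := by
  have hd := dens hf hε hε1 hfε
  have hg := conv_cont hf (conv_cont hf hf)
  have hh : Continuous fun y => f y * conv f (conv f f) (y⁻¹ * x) := conv_integrand_cont hf hg x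
  have h2 : ∀ y, |f y * conv f (conv f f) (y⁻¹ * x) - 1| ≤ 4 * ε := by
    intro y
    obtain ⟨_, _, h3, h4, _, _⟩ := hd (y⁻¹ * x)
    obtain ⟨h5, h6⟩ := hfε y
    rw [abs_le]
    constructor
    · nlinarith
    · nlinarith
  have h3 := int_close hφ hh hδ h1 h2
  rw [mul_one] at h3
  have e : conv (fun y => φ y * f y) (conv f (conv f f)) x =
      ∫ y, φ y * (f y * conv f (conv f f) (y⁻¹ * x)) ∂haar := by
    unfold conv
    congr 1
    funext y
    ring
  obtain ⟨_, _, _, _, h5, h6⟩ := hd x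
  unfold Qop
  rw [e]
  exact close_div hε hε1 hδ h5 h6 (h3.trans (by nlinarith)) (int_abs h1) rfl

lemma Q2_close {φ ψ : G → ℝ} (hφ : Continuous φ) (hψ : Continuous ψ) {δ : ℝ} (hδ : 0 ≤ δ)
    (h1 : ∀ x, |φ x| ≤ δ) (h1' : ∀ x, |ψ x| ≤ δ) (x : G) :
    |Q2 f φ ψ x - (∫ y, φ y ∂haar) * ∫ y, ψ y ∂haar| ≤ 16 * ε * (δ * δ) := by
  have hd := dens hf hε hε1 hfε
  have hK := conv_cont hf hf
  have hI := conv_cont (cmul hψ hf) hK
  have k1 : ∀ z, |conv (fun y => ψ y * f y) (conv f f) z - ∫ y, ψ y ∂haar| ≤ 3 * ε * δ := by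
    intro z
    have hh : Continuous fun y => f y * conv f f (y⁻¹ * z) := conv_integrand_cont hf hK z
    have h2 : ∀ y, |f y * conv f f (y⁻¹ * z) - 1| ≤ 3 * ε := by
      intro y
      obtain ⟨h3, h4, _, _, _, _⟩ := hd (y⁻¹ * z)
      obtain ⟨h5, h6⟩ := hfε y
      rw [abs_le]
      constructor
      · nlinarith
      · nlinarith
    have h3 := int_close hψ hh hδ h1' h2
    rw [mul_one] at h3
    have e : conv (fun y => ψ y * f y) (conv f f) z =
        ∫ y, ψ y * (f y * conv f f (y⁻¹ * z)) ∂haar := by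
      unfold conv
      congr 1
      funext y
      ring
    rw [e]
    exact h3.trans (by nlinarith)
  have hb := int_abs h1'
  have hh : Continuous fun y => f y * conv (fun y => ψ y * f y) (conv f f) (y⁻¹ * x) :=
    conv_integrand_cont hf hI x
  have h2 : ∀ y, |f y * conv (fun y => ψ y * f y) (conv f f) (y⁻¹ * x) - ∫ y, ψ y ∂haar| ≤
      4 * ε * δ := by
    intro y
    obtain ⟨h5, h6⟩ := hfε y
    have e : f y * conv (fun y => ψ y * f y) (conv f f) (y⁻¹ * x) - ∫ y, ψ y ∂haar =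
        f y * (conv (fun y => ψ y * f y) (conv f f) (y⁻¹ * x) - ∫ y, ψ y ∂haar) +
          (f y - 1) * ∫ y, ψ y ∂haar := by ring
    rw [e]
    refine (abs_add_le _ _).trans ?_
    rw [abs_mul, abs_mul, abs_of_nonneg (show 0 ≤ f y by linarith)]
    have h7 : |f y - 1| ≤ ε := by
      rw [abs_le]
      constructor <;> linarith
    have h8 : f y * |conv (fun y => ψ y * f y) (conv f f) (y⁻¹ * x) - ∫ y, ψ y ∂haar| ≤
        1 * (3 * ε * δ) := mul_le_mul h6 (k1 _) (abs_nonneg _) zero_le_one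
    have h9 : |f y - 1| * |∫ y, ψ y ∂haar| ≤ ε * δ := mul_le_mul h7 hb (abs_nonneg _) hε
    linarith
  have h3 := int_close hφ hh hδ h1 h2
  have e : conv (fun y => φ y * f y) (conv (fun y => ψ y * f y) (conv f f)) x =
      ∫ y, φ y * (f y * conv (fun y => ψ y * f y) (conv f f) (y⁻¹ * x)) ∂haar := by
    unfold conv
    congr 1
    funext y
    rw [mul_assoc]
  obtain ⟨_, _, _, _, h5, h6⟩ := hd x
  unfold Q2
  rw [e]
  have ha : |(∫ y, φ y ∂haar) * ∫ y, ψ y ∂haar| ≤ δ * δ := by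
    rw [abs_mul]
    exact mul_le_mul (int_abs h1) hb (abs_nonneg _) hδ
  exact close_div hε hε1 (mul_nonneg hδ hδ) h5 h6 (h3.trans (by nlinarith)) ha rfl

end

/-- JOB COR -/
theorem t_COR : P_AV → P_COR := by
  intro hAV f hf hf0 hf1 hc φ ψ hφ hψ n ε δ hε hfε hoφ hoψ N x
  have hδ : 0 ≤ δ := (abs_nonneg _).trans (hoφ 1 1)
  have cφ := cnd_cont hf hf0 hf1 hφ n
  have cψ := cnd_cont hf hf0 hf1 hψ n
  obtain ⟨Φ, hΦ⟩ : ∃ Φ, Φ = cnd f φ n := ⟨_, rfl⟩
  obtain ⟨Ψ, hΨ⟩ : ∃ Ψ, Ψ = cnd f ψ n := ⟨_, rfl⟩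
  obtain ⟨F, hFd⟩ : ∃ F : ℕ → G → ℝ, F = fun i => f (n + 1 + i) := ⟨_, rfl⟩
  have hF : ∀ i, Continuous (F i) := fun i => by rw [hFd]; exact hf _
  have hF0 : ∀ i x, 0 ≤ F i x := fun i x => by rw [hFd]; exact hf0 _ x
  have hF1 : ∀ i x, 0 < tt x → 0 < F i x := fun i x h => by rw [hFd]; exact hf1 _ x h
  have shift : ∀ (χ : G → ℝ) (N : ℕ), cnd f χ (n + 1 + N) = cnd F (cnd f χ (n + 1)) N := by
    intro χ N
    induction N with
    | zero => rfl
    | succ N ih =>
      have e : cnd f χ (n + 1 + (N + 1)) = Qop (f (n + 1 + N)) (cnd f χ (n + 1 + N)) := rfl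
      have e' : cnd F (cnd f χ (n + 1)) (N + 1) = Qop (F N) (cnd F (cnd f χ (n + 1)) N) := rfl
      rw [e, e', ih, hFd]
  have eφ : cnd f φ (n + 1) = Qop (f n) Φ := by rw [hΦ]; rfl
  have eψ : cnd f ψ (n + 1) = Qop (f n) Ψ := by rw [hΨ]; rfl
  rw [shift φ, shift ψ, eφ, eψ, ← hΦ, ← hΨ, ← hFd]
  rw [← hΦ] at cφ hoφ
  rw [← hΨ] at cψ hoψ
  -- centred observables
  obtain ⟨a, ha⟩ : ∃ a, a = Φ 1 := ⟨_, rfl⟩
  obtain ⟨b, hb⟩ : ∃ b, b = Ψ 1 := ⟨_, rfl⟩
  obtain ⟨p, hp⟩ : ∃ p : G → ℝ, p = fun y => Φ y - a := ⟨_, rfl⟩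
  obtain ⟨q, hq⟩ : ∃ q : G → ℝ, q = fun y => Ψ y - b := ⟨_, rfl⟩
  have hpc : Continuous p := by rw [hp]; exact cφ.sub continuous_const
  have hqc : Continuous q := by rw [hq]; exact cψ.sub continuous_const
  have hpb : ∀ y, |p y| ≤ δ := fun y => by rw [hp, ha]; exact hoφ y 1
  have hqb : ∀ y, |q y| ≤ δ := fun y => by rw [hq, hb]; exact hoψ y 1
  have hΦp : Φ = fun y => a + p y := by rw [hp]; funext y; ring
  have hΨq : Ψ = fun y => b + q y := by rw [hq]; funext y; ring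
  have hfn := hf n
  have hfn0 := hf0 n
  have hfn1 := hf1 n
  have hcn := hc n
  obtain ⟨g, hg⟩ : ∃ g, g = f n := ⟨_, rfl⟩
  rw [← hg] at hfn hfn0 hfn1 hcn hfε
  rw [← hg]
  have QP := Qop_cont hfn hfn0 hfn1 hpc
  have QQ := Qop_cont hfn hfn0 hfn1 hqc
  have Q22 := Q2_cont hfn hfn0 hfn1 hpc hqc
  have hone : ∀ (χ : G → ℝ), Continuous χ → ∀ c x, Qop g (fun y => c + χ y) x = c + Qop g χ x := by
    intro χ hχ c x
    have k0 : Continuous fun _ : G => c := continuous_const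
    have e : (fun y => c + χ y) = fun y => 1 * c + 1 * χ y := by funext y; ring
    rw [e, Qop_lin hfn k0 hχ 1 1 x]
    have h5 := hAV g hfn hfn0 hfn1 (fun _ => c) c c k0 (fun _ => ⟨le_rfl, le_rfl⟩) x
    rw [le_antisymm h5.2 h5.1]
    ring
  have E1 : Q2 g Φ Ψ = fun y => a * b + a * Qop g q y + b * Qop g p y + Q2 g p q y := by
    funext y
    rw [hΦp, hΨq]
    exact Q2_expand hfn hfn0 hfn1 hcn hpc hqc a b y
  have E2 : (fun y => Qop g Φ y * Qop g Ψ y) =
      fun y => a * b + a * Qop g q y + b * Qop g p y + Qop g p y * Qop g q y := by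
    funext y
    rw [hΦp, hΨq, hone p hpc a y, hone q hqc b y]
    ring
  have E3 : cnd F (Qop g Φ) N x = a + cnd F (Qop g p) N x := by
    have e : Qop g Φ = fun y => a + 1 * Qop g p y + 0 * Qop g p y + 0 := by
      funext y
      rw [hΦp, hone p hpc a y]
      ring
    have k0 : Continuous fun _ : G => (0 : ℝ) := continuous_const
    rw [e, cnd_lin4 hF hF0 hF1 hAV QP QP k0]
    have h5 := cnd_av hF hF0 hF1 hAV k0 (u := 0) (v := 0) (fun _ => ⟨le_rfl, le_rfl⟩) N x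
    rw [le_antisymm h5.2 h5.1]
    ring
  have E4 : cnd F (Qop g Ψ) N x = b + cnd F (Qop g q) N x := by
    have e : Qop g Ψ = fun y => b + 1 * Qop g q y + 0 * Qop g q y + 0 := by
      funext y
      rw [hΨq, hone q hqc b y]
      ring
    have k0 : Continuous fun _ : G => (0 : ℝ) := continuous_const
    rw [e, cnd_lin4 hF hF0 hF1 hAV QQ QQ k0]
    have h5 := cnd_av hF hF0 hF1 hAV k0 (u := 0) (v := 0) (fun _ => ⟨le_rfl, le_rfl⟩) N x
    rw [le_antisymm h5.2 h5.1]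
    ring
  have QPQ : Continuous fun y => Qop g p y * Qop g q y := QP.mul QQ
  rw [E1, E2, E3, E4, cnd_lin4 hF hF0 hF1 hAV QQ QP Q22, cnd_lin4 hF hF0 hF1 hAV QQ QP QPQ]
  obtain ⟨m1, hm1⟩ : ∃ m, m = cnd F (Qop g p) N x := ⟨_, rfl⟩
  obtain ⟨m2, hm2⟩ : ∃ m, m = cnd F (Qop g q) N x := ⟨_, rfl⟩
  obtain ⟨m3, hm3⟩ : ∃ m, m = cnd F (Q2 g p q) N x := ⟨_, rfl⟩
  obtain ⟨m4, hm4⟩ : ∃ m, m = cnd F (fun y => Qop g p y * Qop g q y) N x := ⟨_, rfl⟩
  rw [← hm1, ← hm2, ← hm3, ← hm4]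
  have r1 : a * b + a * m2 + b * m1 + m3 - (a + m1) * (b + m2) = m3 - m1 * m2 := by ring
  have r2 : a * b + a * m2 + b * m1 + m4 - (a + m1) * (b + m2) = m4 - m1 * m2 := by ring
  rw [r1, r2]
  have bQp : ∀ y, |Qop g p y| ≤ δ := fun y =>
    abs_le.2 (hAV g hfn hfn0 hfn1 p (-δ) δ hpc (fun z => abs_le.1 (hpb z)) y)
  have bQq : ∀ y, |Qop g q y| ≤ δ := fun y =>
    abs_le.2 (hAV g hfn hfn0 hfn1 q (-δ) δ hqc (fun z => abs_le.1 (hqb z)) y)
  have bm1 : |m1| ≤ δ := by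
    rw [hm1]
    exact abs_le.2 (cnd_av hF hF0 hF1 hAV QP (fun z => abs_le.1 (bQp z)) N x)
  have bm2 : |m2| ≤ δ := by
    rw [hm2]
    exact abs_le.2 (cnd_av hF hF0 hF1 hAV QQ (fun z => abs_le.1 (bQq z)) N x)
  have hδ2 : 0 ≤ δ ^ 2 := by positivity
  have hεδ : 0 ≤ ε * δ ^ 2 := mul_nonneg hε hδ2
  rcases le_or_gt ε (1 / 8) with h8 | h8
  · -- small epsilon
    obtain ⟨A, hA⟩ : ∃ A, A = ∫ y, p y ∂haar := ⟨_, rfl⟩
    obtain ⟨B, hB⟩ : ∃ B, B = ∫ y, q y ∂haar := ⟨_, rfl⟩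
    have bA : |A| ≤ δ := by rw [hA]; exact int_abs hpb
    have bB : |B| ≤ δ := by rw [hB]; exact int_abs hqb
    have c1 : ∀ y, |Qop g p y - A| ≤ 16 * ε * δ := fun y => by
      rw [hA]; exact Qop_close hfn hε h8 hfε hpc hδ hpb y
    have c2 : ∀ y, |Qop g q y - B| ≤ 16 * ε * δ := fun y => by
      rw [hB]; exact Qop_close hfn hε h8 hfε hqc hδ hqb y
    have c3 : ∀ y, |Q2 g p q y - A * B| ≤ 16 * ε * (δ * δ) := fun y => by
      rw [hA, hB]; exact Q2_close hfn hε h8 hfε hpc hqc hδ hpb hqb y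
    have prod : ∀ u v : ℝ, |u - A| ≤ 16 * ε * δ → |v - B| ≤ 16 * ε * δ → |v| ≤ δ →
        |u * v - A * B| ≤ 32 * (ε * δ ^ 2) := by
      intro u v hu hv hv'
      have e : u * v - A * B = (u - A) * v + A * (v - B) := by ring
      rw [e]
      refine (abs_add_le _ _).trans ?_
      rw [abs_mul, abs_mul]
      have h1 : |u - A| * |v| ≤ 16 * ε * δ * δ := mul_le_mul hu hv' (abs_nonneg _) (by positivity)
      have h2 : |A| * |v - B| ≤ δ * (16 * ε * δ) := mul_le_mul bA hv (abs_nonneg _) hδ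
      nlinarith
    have M1 : |m1 - A| ≤ 16 * ε * δ := by
      have := cnd_av hF hF0 hF1 hAV QP (u := A - 16 * ε * δ) (v := A + 16 * ε * δ) (fun z => by
        have := abs_le.1 (c1 z)
        constructor <;> linarith) N x
      rw [← hm1] at this
      rw [abs_le]
      constructor <;> linarith
    have M2 : |m2 - B| ≤ 16 * ε * δ := by
      have := cnd_av hF hF0 hF1 hAV QQ (u := B - 16 * ε * δ) (v := B + 16 * ε * δ) (fun z => by
        have := abs_le.1 (c2 z)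
        constructor <;> linarith) N x
      rw [← hm2] at this
      rw [abs_le]
      constructor <;> linarith
    have M3 : |m3 - A * B| ≤ 16 * ε * (δ * δ) := by
      have := cnd_av hF hF0 hF1 hAV Q22 (u := A * B - 16 * ε * (δ * δ))
        (v := A * B + 16 * ε * (δ * δ)) (fun z => by
        have := abs_le.1 (c3 z)
        constructor <;> linarith) N x
      rw [← hm3] at this
      rw [abs_le]
      constructor <;> linarith
    have M4 : |m4 - A * B| ≤ 32 * (ε * δ ^ 2) := by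
      have := cnd_av hF hF0 hF1 hAV QPQ (u := A * B - 32 * (ε * δ ^ 2))
        (v := A * B + 32 * (ε * δ ^ 2)) (fun z => by
        have := abs_le.1 (prod _ _ (c1 z) (c2 z) (bQq z))
        constructor <;> linarith) N x
      rw [← hm4] at this
      rw [abs_le]
      constructor <;> linarith
    have M12 := prod m1 m2 M1 M2 bm2
    constructor
    · have e : m3 - m1 * m2 = (m3 - A * B) - (m1 * m2 - A * B) := by ring
      rw [e]
      refine (abs_sub _ _).trans ?_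
      nlinarith
    · have e : m4 - m1 * m2 = (m4 - A * B) - (m1 * m2 - A * B) := by ring
      rw [e]
      refine (abs_sub _ _).trans ?_
      nlinarith
  · -- large epsilon
    have bQ2 : ∀ y, |Q2 g p q y| ≤ δ * δ := fun y => Q2_triv hfn hfn0 hfn1 hδ hpb hqb y
    have bPQ : ∀ y, |Qop g p y * Qop g q y| ≤ δ * δ := fun y => by
      rw [abs_mul]
      exact mul_le_mul (bQp y) (bQq y) (abs_nonneg _) hδ
    have bm3 : |m3| ≤ δ * δ := by
      rw [hm3]
      exact abs_le.2 (cnd_av hF hF0 hF1 hAV Q22 (fun z => abs_le.1 (bQ2 z)) N x)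
    have bm4 : |m4| ≤ δ * δ := by
      rw [hm4]
      exact abs_le.2 (cnd_av hF hF0 hF1 hAV QPQ (fun z => abs_le.1 (bPQ z)) N x)
    have b12 : |m1 * m2| ≤ δ * δ := by
      rw [abs_mul]
      exact mul_le_mul bm1 bm2 (abs_nonneg _) hδ
    have h9 : 2 * (δ * δ) ≤ 70 * ε * δ ^ 2 := by nlinarith
    exact ⟨(abs_sub _ _).trans (by linarith), (abs_sub _ _).trans (by linarith)⟩

end Pool.Agent.Q299.MK
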