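import Pool.Agent.Q291.MK.Stm8
import Pool.Agent.Q291.MK.Base

/-!
# Job TEN of project MK: the tension of the scaling limit
-/

set_option autoImplicit false

namespace Pool.Agent.Q299.MK

open Filter Topology Pool.Agent.Q291.MK

lemma exists_small {C c M : ℝ} (hc : 0 < c) (hM : 0 < M) : ∃ k : ℕ, C * Real.exp (-c * 4 ^ k) < M := by
  have h1 : Tendsto (fun k : ℕ => (4 : ℝ) ^ k) atTop atTop :=
    tendsto_pow_atTop_atTop_of_one_lt (by norm_num)
  have h2 : Tendsto (fun k : ℕ => -c * (4 : ℝ) ^ k) atTop atBot :=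
    h1.const_mul_atTop_of_neg (by linarith)
  have h3 : Tendsto (fun k : ℕ => C * Real.exp (-c * 4 ^ k)) atTop (𝓝 (C * 0)) :=
    (Real.tendsto_exp_atBot.comp h2).const_mul C
  rw [mul_zero] at h3
  exact (h3.eventually (gt_mem_nhds hM)).exists

theorem core (hO : P_OR2) (hP : P_PROP) : ∃ (K M2 : ℝ) (i0 : ℕ), 0 ≤ K ∧ 1 ≤ M2 ∧
    ∀ (m σ : ℝ) (ν : ℕ → ℕ) (x : ℕ → ℝ) (b : ℤ → ℕ → ℝ), M2 ≤ m →
    Tendsto ν atTop atTop → (∀ l, 0 < x l) →
    Tendsto (fun l => mean (R^[ν l] (pois (x l)))) atTop (𝓝 m) →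
    (∀ (k : ℤ) (i : ℕ),
      Tendsto (fun l => (R^[((ν l : ℤ) + k).toNat] (pois (x l))) i) atTop (𝓝 (b k i))) →
    Tendsto (fun n : ℕ => -Real.log (W (b n)) / 4 ^ n) atTop (𝓝 σ) →
    ∃ n : ℕ, |m - 2 * n - 8 / 15 * Real.log m| ≤ K ∧ σ ≤ Real.log 2 / 4 ^ n ∧
      Real.log 2 / 4 ^ (i0 + n + 1) ≤ σ ∧ (∀ k : ℤ, 0 ≤ b k 0) ∧
      ∀ i : ℕ, 1 - b ((n + 1 + i0 + i : ℕ) : ℤ) 0 ≤ (1 / 2 : ℝ) ^ (4 ^ i) := by
  obtain ⟨Mo, Co, hMo, hCo, hOR⟩ := hO
  obtain ⟨C3, C8, M, D, Q, hC3, hC8, hD, hMD, hQ, horb⟩ := bORB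
  have hM10 : 10 ≤ M := by linarith
  obtain ⟨M', hM'⟩ : ∃ M', M' = Mo + M + 4 * D + 5 := ⟨_, rfl⟩
  have hM'1 : 1 ≤ M' := by linarith
  obtain ⟨K0, hK0⟩ : ∃ K0, K0 = M' + 4 + D := ⟨_, rfl⟩
  have hQ0 : 0 ≤ Q := by nlinarith
  obtain ⟨Q1, hQ1⟩ : ∃ Q1, Q1 = Q + 2 * M' + 2 * M' ^ 2 + 1 := ⟨_, rfl⟩
  have hQ1one : 1 ≤ Q1 := by nlinarith
  obtain ⟨i0, hi0⟩ : ∃ i0 : ℕ, 24 * Q1 * M' ≤ i0 := exists_nat_ge _
  refine ⟨Co + 2 * K0, M', i0, by linarith, hM'1, ?_⟩
  intro m σ ν x b hm hν hx hmean hb hσ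
  have hm0' : 0 < m := by linarith
  obtain ⟨C', hC', -, hLaw, hSum, hMean, hR, hm0, hW, -, -, h1b, hb1, ⟨c, hc, hdec⟩, -⟩ :=
    hP m ν x b hm0' hν hx hmean hb
  have cast : ∀ l j : ℕ, ((ν l : ℤ) + ((j : ℕ) : ℤ)).toNat = ν l + j := fun l j => by
    rw [← Nat.cast_add, Int.toNat_natCast]
  have hbj : ∀ j i : ℕ, Tendsto (fun l => (R^[ν l + j] (pois (x l))) i) atTop (𝓝 (b (j : ℤ) i)) := by
    intro j i
    have h := hb (j : ℤ) i
    simpa only [cast] using h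
  have hMj : ∀ j : ℕ, Tendsto (fun l => mean (R^[ν l + j] (pois (x l)))) atTop (𝓝 (mean (b (j : ℤ)))) := by
    intro j
    have h := hMean (j : ℤ)
    simpa only [cast] using h
  have hAM0 : ∀ l, AM (pois (x l)) := fun l => (bPOIS (x l) (hx l).le).1
  have h00 : ∀ l, pois (x l) 0 < 1 := fun l => by
    unfold pois
    simp only [pow_zero, Nat.factorial_zero, Nat.cast_one, mul_one, div_one]
    exact Real.exp_lt_one_iff.2 (by linarith [hx l])
  have hA : ∀ l n, AM (R^[n] (pois (x l))) := fun l => (bST _ (hAM0 l) (h00 l)).1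
  have h0 : ∀ l n, (R^[n] (pois (x l))) 0 < 1 := fun l => (bST _ (hAM0 l) (h00 l)).2.1
  have hWj : ∀ j : ℕ, Tendsto (fun l => W (R^[ν l + j] (pois (x l)))) atTop (𝓝 (W (b (j : ℤ)))) :=
    fun j => (bCONT (fun l => R^[ν l + j] (pois (x l))) (b (j : ℤ)) (fun l => (hA l _).toLaw)
      (hLaw _) (hbj j)).2.2.2.2.2.2
  have hit : ∀ l j : ℕ, R^[ν l + (j + 1)] (pois (x l)) = R (R^[ν l + j] (pois (x l))) := fun l j =>
    Function.iterate_succ_apply' R (ν l + j) _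
  -- the last large scale
  have hex : ∃ k : ℕ, mean (b (k : ℤ)) < M' := by
    obtain ⟨k, hk⟩ := exists_small (C := C') hc (show 0 < M' by linarith)
    exact ⟨k, (hdec k).trans_lt hk⟩
  classical
  have hne : Nat.find hex ≠ 0 := by
    intro h
    have := Nat.find_spec hex
    rw [h, Nat.cast_zero, hm0] at this
    linarith
  obtain ⟨n, hn⟩ := Nat.exists_eq_succ_of_ne_zero hne
  have hlt : mean (b ((n + 1 : ℕ) : ℤ)) < M' := by
    have := Nat.find_spec hex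
    rwa [hn] at this
  have hge : M' ≤ mean (b (n : ℤ)) := not_lt.1 (Nat.find_min hex (by rw [hn]; exact Nat.lt_succ_self n))
  have hevn : ∀ᶠ l in atTop, Mo + M < mean (R^[ν l + n] (pois (x l))) :=
    (hMj n).eventually (lt_mem_nhds (by linarith))
  have hμn : 0 < mean (b (n : ℤ)) := by linarith
  -- one step
  have hstep : mean (b (n : ℤ)) ≤ K0 := by
    have h1 : Tendsto (fun l => |mean (R^[ν l + n] (pois (x l))) - mean (R^[ν l + (n + 1)] (pois (x l))) - 2|)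
        atTop (𝓝 |mean (b (n : ℤ)) - mean (b ((n + 1 : ℕ) : ℤ)) - 2|) :=
      (((hMj n).sub (hMj (n + 1))).sub_const 2).abs
    have h2 : |mean (b (n : ℤ)) - mean (b ((n + 1 : ℕ) : ℤ)) - 2| ≤ 2 + D := by
      refine le_of_tendsto h1 ?_
      filter_upwards [hevn] with l hl
      have h3 := ((horb (x l) (hx l) (ν l + n)).1 (by linarith)).2.2 (ν l + n) le_rfl
      have e : (((ν l + n : ℕ) : ℝ) + 1 - ((ν l + n : ℕ) : ℝ)) = 1 := by ring
      rw [e, Real.log_one, mul_one, add_zero, mul_one] at h3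
      exact h3
    have h3 := (abs_le.1 h2).2
    linarith
  -- the number of steps
  have hnum : |m - mean (b (n : ℤ)) - 2 * n - 8 / 15 * Real.log (m / mean (b (n : ℤ)))| ≤ Co := by
    have h0' := hMj 0
    rw [Nat.cast_zero, hm0] at h0'
    have h1 : Tendsto (fun l => |mean (R^[ν l + 0] (pois (x l))) - mean (R^[ν l + n] (pois (x l))) -
        2 * (n : ℝ) - 8 / 15 * Real.log (mean (R^[ν l + 0] (pois (x l))) /
          mean (R^[ν l + n] (pois (x l))))|) atTop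
        (𝓝 |m - mean (b (n : ℤ)) - 2 * n - 8 / 15 * Real.log (m / mean (b (n : ℤ)))|) := by
      refine Tendsto.abs ?_
      refine ((h0'.sub (hMj n)).sub_const _).sub ?_
      refine Tendsto.const_mul _ ?_
      exact (h0'.div (hMj n) hμn.ne').log (div_pos hm0' hμn).ne'
    refine le_of_tendsto h1 ?_
    filter_upwards [hevn] with l hl
    have h3 := hOR (x l) (ν l + n) (hx l) (by linarith) (ν l + 0) (by omega)
    have e : 2 * (((ν l + n : ℕ) : ℝ) - ((ν l + 0 : ℕ) : ℝ)) = 2 * (n : ℝ) := by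
      push_cast
      ring
    rw [e] at h3
    exact h3
  -- the tension
  have hWpos : ∀ j : ℕ, 0 < W (b (j : ℤ)) := fun j => (hW _).1
  have hWmono : ∀ j : ℕ, W (b (j : ℤ)) ^ 4 ≤ W (b ((j + 1 : ℕ) : ℤ)) := by
    intro j
    refine le_of_tendsto_of_tendsto' ((hWj j).pow 4) (hWj (j + 1)) fun l => ?_
    rw [hit]
    exact (bRB _ (hA l _)).2.2.2.2.1
  have hanti : Antitone fun j : ℕ => -Real.log (W (b (j : ℤ))) / 4 ^ j := by
    refine antitone_nat_of_succ_le fun j => ?_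
    have h1 := Real.log_le_log (pow_pos (hWpos j) 4) (hWmono j)
    rw [Real.log_pow] at h1
    push_cast at h1
    rw [div_le_div_iff₀ (by positivity) (by positivity), pow_succ]
    have h4 : (0 : ℝ) < 4 ^ j := by positivity
    push_cast
    nlinarith
  have hσle : ∀ j : ℕ, σ ≤ -Real.log (W (b (j : ℤ))) / 4 ^ j := fun j => hanti.le_of_tendsto hσ j
  have hWn : 1 / 2 ≤ W (b (n : ℤ)) := by
    have h1 : 1 - D / mean (b (n : ℤ)) ≤ W (b (n : ℤ)) := by
      refine le_of_tendsto_of_tendsto ((tendsto_const_nhds (x := D)).div (hMj n) hμn.ne' |>.const_sub 1)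
        (hWj n) ?_
      filter_upwards [hevn] with l hl
      exact ((horb (x l) (hx l) (ν l + n)).1 (by linarith)).2.1
    have h2 : D / mean (b (n : ℤ)) ≤ 1 / 4 := by
      rw [div_le_iff₀ hμn]
      linarith
    linarith
  have hσup : σ ≤ Real.log 2 / 4 ^ n := by
    refine (hσle n).trans ?_
    have h1 : -Real.log (W (b (n : ℤ))) ≤ Real.log 2 := by
      have h2 := Real.log_le_log (by norm_num) hWn
      rw [one_div, Real.log_inv] at h2
      linarith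
    exact div_le_div_of_nonneg_right h1 (by positivity)
  -- lower bound
  have hevs : ∀ᶠ l in atTop, mean (R^[ν l + (n + 1)] (pois (x l))) < M' :=
    (hMj (n + 1)).eventually (gt_mem_nhds hlt)
  have hkey : ∀ᶠ l in atTop, (∀ i : ℕ, Real.log 2 / 4 ^ i0 ≤
      -Real.log (W (R^[ν l + (n + 1 + i)] (pois (x l)))) / 4 ^ i) ∧
      mean (R^[ν l + (n + 1 + i0)] (pois (x l))) ≤ 1 / 2 := by
    filter_upwards [hevs] with l hl
    obtain ⟨a, ha⟩ : ∃ a, a = R^[ν l + (n + 1)] (pois (x l)) := ⟨_, rfl⟩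
    have haA : AM a := by rw [ha]; exact hA l _
    have ha0 : a 0 < 1 := by rw [ha]; exact h0 l _
    rw [← ha] at hl
    have hmn : 0 ≤ mean a := (bCRUDE a haA).1
    have hq : q2 a ≤ Q + M' + M' ^ 2 := by
      rcases lt_or_ge (mean a) M with h | h
      · have h1 : q2 a ≤ Q := by
          rw [ha]
          exact (horb (x l) (hx l) (ν l + (n + 1))).2 (by rw [← ha]; exact h)
        nlinarith
      · have h1 : vr a ≤ mean a := by
          have h2 := ((horb (x l) (hx l) (ν l + (n + 1))).1 (by rw [← ha]; exact h)).1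
          rw [← ha] at h2
          exact h2.vr_le
        rw [Pool.Agent.Q146.MK.q2_eq haA]
        nlinarith
    obtain ⟨-, -, -, -, -, -, hqq, σ', -, -, hσ'le, hσ'ge⟩ := bST a haA ha0
    have hhalf : mean (R^[i0] a) ≤ 1 / 2 := by
      refine hqq Q1 hQ1one (by nlinarith) i0 ?_
      have : 24 * Q1 * mean a ≤ 24 * Q1 * M' := mul_le_mul_of_nonneg_left hl.le (by linarith)
      linarith
    have hiter : ∀ i : ℕ, R^[i] a = R^[ν l + (n + 1 + i)] (pois (x l)) := by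
      intro i
      rw [ha, ← Function.iterate_add_apply, show i + (ν l + (n + 1)) = ν l + (n + 1 + i) by omega]
    refine ⟨fun i => ?_, ?_⟩
    · rw [← hiter]
      exact (hσ'ge i0 hhalf).trans (hσ'le i)
    · rw [← hiter]
      exact hhalf
  have hlim1 : ∀ i : ℕ, Real.log 2 / 4 ^ i0 ≤ -Real.log (W (b ((n + 1 + i : ℕ) : ℤ))) / 4 ^ i := by
    intro i
    have h1 : Tendsto (fun l => -Real.log (W (R^[ν l + (n + 1 + i)] (pois (x l)))) / (4 : ℝ) ^ i) atTop
        (𝓝 (-Real.log (W (b ((n + 1 + i : ℕ) : ℤ))) / 4 ^ i)) :=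
      (((hWj (n + 1 + i)).log (hWpos _).ne').neg).div_const _
    exact ge_of_tendsto h1 (hkey.mono fun l hl => hl.1 i)
  have hσlow : Real.log 2 / 4 ^ (i0 + n + 1) ≤ σ := by
    have h1 : Tendsto (fun i : ℕ => (4 : ℝ) ^ (n + 1) *
        (-Real.log (W (b ((i + (n + 1) : ℕ) : ℤ))) / 4 ^ (i + (n + 1)))) atTop
        (𝓝 ((4 : ℝ) ^ (n + 1) * σ)) := (hσ.comp (tendsto_add_atTop_nat (n + 1))).const_mul _
    have h2 : Real.log 2 / 4 ^ i0 ≤ (4 : ℝ) ^ (n + 1) * σ := by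
      refine ge_of_tendsto' h1 fun i => ?_
      have h3 := hlim1 i
      have e : n + 1 + i = i + (n + 1) := by omega
      rw [e] at h3
      refine h3.trans (le_of_eq ?_)
      have p1 : (4 : ℝ) ^ (i + (n + 1)) = 4 ^ i * 4 ^ (n + 1) := pow_add _ _ _
      have p2 : (4 : ℝ) ^ (n + 1) ≠ 0 := by positivity
      have p3 : (4 : ℝ) ^ i ≠ 0 := by positivity
      rw [p1, mul_comm ((4 : ℝ) ^ i) (4 ^ (n + 1)), mul_div_assoc', mul_div_mul_left _ _ p2]
    rw [div_le_iff₀ (by positivity)] at h2 ⊢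
    calc Real.log 2 ≤ (4 : ℝ) ^ (n + 1) * σ * 4 ^ i0 := h2
      _ = σ * 4 ^ (i0 + n + 1) := by
        rw [show i0 + n + 1 = (n + 1) + i0 by omega, pow_add]
        ring
  -- decay
  have hmnn : ∀ j : ℕ, 0 ≤ mean (b (j : ℤ)) := fun j =>
    ge_of_tendsto' (hMj j) fun l => (bCRUDE _ (hA l _)).1
  have hpow : ∀ j : ℕ, mean (b ((j + 1 : ℕ) : ℤ)) ≤ 32 / 125 * mean (b (j : ℤ)) ^ 4 := by
    intro j
    refine le_of_tendsto_of_tendsto' (hMj (j + 1)) (((hMj j).pow 4).const_mul _) fun l => ?_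
    rw [hit]
    exact (bRB _ (hA l _)).2.2.1
  have hhalf : mean (b ((n + 1 + i0 : ℕ) : ℤ)) ≤ 1 / 2 :=
    le_of_tendsto (hMj (n + 1 + i0)) (hkey.mono fun l hl => hl.2)
  have hdecay : ∀ i : ℕ, mean (b ((n + 1 + i0 + i : ℕ) : ℤ)) ≤ (1 / 2 : ℝ) ^ (4 ^ i) := by
    intro i
    induction i with
    | zero => simpa using hhalf
    | succ i ih =>
      have h1 := hpow (n + 1 + i0 + i)
      have h2 : mean (b ((n + 1 + i0 + i : ℕ) : ℤ)) ^ 4 ≤ ((1 / 2 : ℝ) ^ (4 ^ i)) ^ 4 :=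
        pow_le_pow_left₀ (hmnn _) ih 4
      rw [← pow_mul, ← pow_succ] at h2
      have h3 : (0 : ℝ) ≤ (1 / 2 : ℝ) ^ (4 ^ (i + 1)) := by positivity
      have e : n + 1 + i0 + i + 1 = n + 1 + i0 + (i + 1) := by omega
      rw [e] at h1
      linarith
  refine ⟨n, ?_, hσup, hσlow, fun k => (hLaw k).nn 0, fun i => (h1b _).trans (hdecay i)⟩
  have hlogn0 : 0 ≤ Real.log (mean (b (n : ℤ))) := Real.log_nonneg (by linarith)
  have hlogn : Real.log (mean (b (n : ℤ))) ≤ K0 := by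
    have := Real.log_le_sub_one_of_pos hμn
    linarith
  rw [Real.log_div hm0'.ne' hμn.ne'] at hnum
  rw [abs_le] at hnum ⊢
  constructor
  · linarith [hnum.1]
  · linarith [hnum.2]

/-- JOB TEN -/
theorem t_TEN : P_OR2 → P_PROP → P_SG3 ∧ P_MG3 := by
  intro hO hP
  obtain ⟨K, M2, i0, hK, hM2, hcore⟩ := core hO hP
  have hlog2 : 1 / 2 < Real.log 2 := by have := Real.log_two_gt_d9; linarith
  have hlog2' : Real.log 2 < 1 := by have := Real.log_two_lt_d9; linarith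
  have hlog4 : Real.log 4 = 2 * Real.log 2 := by
    rw [show (4 : ℝ) = 2 ^ 2 by norm_num, Real.log_pow]
    norm_num
  constructor
  · refine ⟨|Real.log (Real.log 2)| + (i0 + 1) * Real.log 4 + Real.log 2 * K, M2, ?_⟩
    intro m σ ν x b hm hν hx hmean hb hσ
    obtain ⟨n, h1, h2, h3, -, -⟩ := hcore m σ ν x b hm hν hx hmean hb hσ
    have hσ0 : 0 < σ := lt_of_lt_of_le (by positivity) h3
    have u := Real.log_le_log hσ0 h2
    have d := Real.log_le_log (by positivity) h3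
    rw [Real.log_div (by linarith) (by positivity), Real.log_pow, hlog4] at u d
    push_cast at u d
    rw [hlog4]
    have a1 := neg_abs_le (Real.log (Real.log 2))
    have a2 := le_abs_self (Real.log (Real.log 2))
    have b1 := (abs_le.1 h1).1
    have b2 := (abs_le.1 h1).2
    have c1 : -(Real.log 2 * K) ≤ Real.log 2 * (m - 2 * n - 8 / 15 * Real.log m) := by nlinarith
    have c2 : Real.log 2 * (m - 2 * n - 8 / 15 * Real.log m) ≤ Real.log 2 * K := by nlinarith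
    have hi : (0 : ℝ) ≤ i0 * Real.log 2 := by positivity
    rw [abs_le]
    constructor
    · nlinarith
    · nlinarith
  · refine ⟨2, (4 ^ (1 + i0))⁻¹, M2, by norm_num, by positivity, ?_⟩
    intro m σ ν x b hm hν hx hmean hb hσ
    obtain ⟨n, h1, h2, h3, h4, h5⟩ := hcore m σ ν x b hm hν hx hmean hb hσ
    have hσ0 : 0 < σ := lt_of_lt_of_le (by positivity) h3
    have h4n : (1 : ℝ) ≤ 4 ^ n := one_le_pow₀ (by norm_num)
    have hσ1 : σ ≤ 1 := by
      refine h2.trans ?_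
      rw [div_le_one (by positivity)]
      linarith
    refine ⟨by linarith, fun k => ?_⟩
    have hσn : σ * 4 ^ n ≤ Real.log 2 := by
      rwa [le_div_iff₀ (by positivity)] at h2
    rcases le_or_gt k ((n + 1 + i0 : ℕ) : ℤ) with hk | hk
    · have e1 : (4 : ℝ) ^ k ≤ (4 : ℝ) ^ (n + 1 + i0 : ℕ) := by
        rw [← zpow_natCast]
        exact zpow_le_zpow_right₀ (by norm_num) hk
      have e2 : (4 ^ (1 + i0))⁻¹ * σ * (4 : ℝ) ^ k ≤ Real.log 2 := by
        calc (4 ^ (1 + i0))⁻¹ * σ * (4 : ℝ) ^ k ≤ (4 ^ (1 + i0))⁻¹ * σ * (4 : ℝ) ^ (n + 1 + i0 : ℕ) :=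
              mul_le_mul_of_nonneg_left e1 (by positivity)
          _ = σ * 4 ^ n := by
              have p1 : (4 : ℝ) ^ (n + 1 + i0) = 4 ^ n * 4 ^ (1 + i0) := by
                rw [show n + 1 + i0 = n + (1 + i0) by omega, pow_add]
              have p2 : (4 : ℝ) ^ (1 + i0) ≠ 0 := by positivity
              rw [p1]
              calc (4 ^ (1 + i0))⁻¹ * σ * ((4 : ℝ) ^ n * 4 ^ (1 + i0))
                  = ((4 ^ (1 + i0))⁻¹ * (4 : ℝ) ^ (1 + i0)) * (σ * 4 ^ n) := by ring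
                _ = σ * 4 ^ n := by rw [inv_mul_cancel₀ p2, one_mul]
          _ ≤ Real.log 2 := hσn
      have e3 : (1 / 2 : ℝ) ≤ Real.exp (-(4 ^ (1 + i0))⁻¹ * σ * (4 : ℝ) ^ k) := by
        have e4 : Real.exp (-Real.log 2) ≤ Real.exp (-(4 ^ (1 + i0))⁻¹ * σ * (4 : ℝ) ^ k) :=
          Real.exp_le_exp.2 (by linarith)
        rwa [Real.exp_neg, Real.exp_log (by norm_num), ← one_div] at e4
      have := h4 k
      linarith
    · obtain ⟨i, hi⟩ : ∃ i : ℕ, k = ((n + 1 + i0 + i : ℕ) : ℤ) := by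
        refine ⟨(k - ((n + 1 + i0 : ℕ) : ℤ)).toNat, ?_⟩
        push_cast
        push_cast at hk
        omega
      rw [hi, zpow_natCast]
      refine (h5 i).trans ?_
      have e1 : (1 / 2 : ℝ) ^ (4 ^ i) = Real.exp (-(Real.log 2 * 4 ^ i)) := by
        rw [Real.exp_neg, Real.exp_mul, Real.exp_log (by norm_num), one_div, inv_pow,
          ← Real.rpow_natCast]
        push_cast
        rfl
      have e2 : (4 ^ (1 + i0))⁻¹ * σ * (4 : ℝ) ^ (n + 1 + i0 + i) ≤ Real.log 2 * 4 ^ i := by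
        calc (4 ^ (1 + i0))⁻¹ * σ * (4 : ℝ) ^ (n + 1 + i0 + i) = σ * 4 ^ n * 4 ^ i := by
              have p1 : (4 : ℝ) ^ (n + 1 + i0 + i) = 4 ^ n * 4 ^ (1 + i0) * 4 ^ i := by
                rw [show n + 1 + i0 + i = n + (1 + i0) + i by omega, pow_add (4 : ℝ) (n + (1 + i0)) i,
                  pow_add (4 : ℝ) n (1 + i0)]
              have p2 : (4 : ℝ) ^ (1 + i0) ≠ 0 := by positivity
              rw [p1]
              calc (4 ^ (1 + i0))⁻¹ * σ * ((4 : ℝ) ^ n * 4 ^ (1 + i0) * 4 ^ i)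
                  = ((4 ^ (1 + i0))⁻¹ * (4 : ℝ) ^ (1 + i0)) * (σ * 4 ^ n * 4 ^ i) := by ring
                _ = σ * 4 ^ n * 4 ^ i := by rw [inv_mul_cancel₀ p2, one_mul]
          _ ≤ Real.log 2 * 4 ^ i := mul_le_mul_of_nonneg_right hσn (by positivity)
      rw [e1]
      have e3 : Real.exp (-(Real.log 2 * 4 ^ i)) ≤
          Real.exp (-(4 ^ (1 + i0))⁻¹ * σ * (4 : ℝ) ^ (n + 1 + i0 + i)) :=
        Real.exp_le_exp.2 (by linarith)
      have := Real.exp_pos (-(4 ^ (1 + i0))⁻¹ * σ * (4 : ℝ) ^ (n + 1 + i0 + i))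
      linarith

end Pool.Agent.Q299.MK
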